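import Pool.Agent.Lib.MP_1f047c_nt.DrMat

namespace Pool.Agent.Results.MP_1f047c_nt.DrinfeldLogs

open IntermediateField

/-- The twisted polynomial `∑ g_j τ^j` acts by `y ↦ ∑ g_j y^(q^j)`. -/
noncomputable def act {K : Type} [Field K] (q : ℕ) (g : Polynomial K) (y : K) : K :=
  g.sum fun j c => c * y ^ q ^ j

open Pool.Agent.Lib.MP_1f047c_nt in
theorem result (F K : Type) [Field F] [Fintype F] [NormedField K] [IsUltrametricDist K]
    [CompleteSpace K] [IsAlgClosed K] [Algebra F K] (θ : K) (hθ : Transcendental F θ)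
    (v : Polynomial F) (hv : v ≠ 0) (hvθ : ‖Polynomial.aeval θ v‖ < 1)
    (ρ : Polynomial K) (hρ0 : ρ.coeff 0 = θ) (hr : 0 < ρ.natDegree)
    (hρ : ∀ j, IsAlgebraic F⟮θ⟯ (ρ.coeff j)) (β : ℕ → K) (hβ0 : β 0 = 1)
    (hβ : ∀ j, ∑ l ∈ Finset.range (j + 1),
      β (j - l) * ρ.coeff l ^ Fintype.card F ^ (j - l) = θ * β j)
    (n : ℕ) (α lam : Fin n → K) (halg : ∀ i, IsAlgebraic F⟮θ⟯ (α i))
    (hα : ∀ i j, 0 < j → ‖ρ.coeff j‖ * ‖α i‖ ^ (Fintype.card F ^ j - 1) < 1)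
    (hlam : ∀ i, HasSum (fun j : ℕ => β j * α i ^ Fintype.card F ^ j) (lam i))
    (hdep : ¬AlgebraicIndependent F⟮θ⟯ lam) :
    ∃ e : Fin n → Polynomial K, (∀ i j, IsAlgebraic F⟮θ⟯ ((e i).coeff j)) ∧
      (∀ i y, act (Fintype.card F) (e i) (act (Fintype.card F) ρ y) =
        act (Fintype.card F) ρ (act (Fintype.card F) (e i) y)) ∧
      (∃ i, (e i).coeff 0 ≠ 0) ∧ ∑ i, act (Fintype.card F) (e i) (α i) = 0 ∧
      ∑ i, (e i).coeff 0 * lam i = 0 := by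
  let _ : NontriviallyNormedField K :=
    .ofNormNeOne ⟨Polynomial.aeval θ v, fun h => hθ ⟨v, hv, h⟩, hvθ.ne⟩
  let φ : K →+* K := FiniteField.frobeniusAlgHom F K
  have hφ : ∀ x, φ x = x ^ Fintype.card F := fun _ => rfl
  have h1 : act (Fintype.card F) = Dr.op φ := by
    funext g y
    simp only [act, Dr.op, Car.iter_eq hφ]
  have : Infinite K := NontriviallyNormedField.infinite K
  simp only [← Car.iter_eq hφ] at hβ hlam
  obtain ⟨e, e1, e2, e3⟩ := Dr.drinfeld_scale hφ hθ hv hvθ hρ0 hr hρ hβ0 hβ halg hα hlam hdep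
  rw [h1]
  exact ⟨e, fun i => Dr.end_alg hφ Fintype.one_lt_card hr hρ (e2 i), e2, e1, e3⟩

end Pool.Agent.Results.MP_1f047c_nt.DrinfeldLogs
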