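import Pool.Agent.Lib.MP_1f047c_nt.ExCor

namespace Pool.Agent.Results.MP_1f047c_nt.ExceptionalC

open Pool.Agent.Lib.MP_1f047c_nt Filter

/-- All polynomial relations of bounded degree between logarithms of height at most `H` come from
at most `H ^ ε` spaces of bounded dimension. -/
theorem result (N D d : ℕ) (ε : ℝ) (hε : 0 < ε) : ∃ H₀ : ℕ, ∀ H : ℕ, H₀ ≤ H → ∀ L : Set ℂ,
    (∀ z ∈ L, ‖z‖ ≤ Real.log H ∧ ∃ (K : Type) (_ : Field K) (_ : NumberField K) (φ : K →+* ℂ)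
      (α : K), Module.finrank ℚ K ≤ d ∧ Complex.exp z = φ α ∧ Height.mulHeight₁ α ≤ H) →
    ∃ 𝒲 : Finset (Finset ℂ), (𝒲.card : ℝ) ≤ (H : ℝ) ^ ε ∧
      (∀ W ∈ 𝒲, W.card ≤ N * (N + 1) ∧ (W : Set ℂ) ⊆ L) ∧
      ∀ lam : Fin N → ℂ, (∀ k, lam k ∈ L) → ∃ W ∈ 𝒲,
        ∀ (K : Type) [Field K] [NumberField K] (φ : K →+* ℂ), Module.finrank ℚ K ≤ d →
        ∀ F : MvPolynomial (Fin N) K, F.totalDegree ≤ D → MvPolynomial.eval₂ φ lam F = 0 →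
        ∀ y : Fin N → ℂ, (∀ m : Fin N → ℚ, ∑ k, (m k : ℂ) * lam k ∈ Submodule.span ℚ (W : Set ℂ) →
          ∑ k, (m k : ℂ) * y k = ∑ k, (m k : ℂ) * lam k) → MvPolynomial.eval₂ φ y F = 0 := by
  classical
  refine eventually_atTop.1 ((Ex.exc TA.nice_complex Th.fam_complex N (d + D) d hε).mono
    fun H h L hL => (h L fun z hz => ?_).imp fun 𝒲 h => ⟨h.1, h.2.1, fun l hl =>
      (h.2.2 l hl).imp fun W hW => ⟨hW.1, hW.2.roy⟩⟩)
  obtain ⟨h1, K, _, _, φ, α, h2, h3, h4⟩ := hL z hz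
  exact ⟨Complex.exp_eq_exp_ℂ ▸ Ex.alg_of h2 h3 h4, h1⟩

/-- Consequence for Q1: at most `H ^ ε * B ^ (N - 2)` of the `B ^ N` tuples span a space over which
some `n × n` matrix is a counterexample. -/
theorem q1_count (n N d : ℕ) (ε : ℝ) (hε : 0 < ε) : ∃ H₀ : ℕ, ∀ H : ℕ, H₀ ≤ H → ∀ L : Finset ℂ,
    (∀ z ∈ L, ‖z‖ ≤ Real.log H ∧ ∃ (K : Type) (_ : Field K) (_ : NumberField K) (φ : K →+* ℂ)
      (α : K), Module.finrank ℚ K ≤ d ∧ Complex.exp z = φ α ∧ Height.mulHeight₁ α ≤ H) →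
    ∀ S : Finset (Fin N → ℂ), (∀ lam ∈ S, (∀ k, lam k ∈ L) ∧ ∃ M : Fin n → Fin n → ℂ,
      (∀ i j, ∃ b : Fin N → ℚ, M i j = ∑ k, (b k : ℂ) * lam k) ∧
        (∃ x : Fin n → ℂ, x ≠ 0 ∧ ∀ i, ∑ j, M i j * x j = 0) ∧
        ¬∃ w v : Fin n → ℚ, w ≠ 0 ∧ v ≠ 0 ∧ ∑ i, ∑ j, (w i : ℂ) * M i j * (v j : ℂ) = 0) →
      (S.card : ℝ) ≤ (H : ℝ) ^ ε * L.card ^ (N - 2) := by
  classical
  refine eventually_atTop.1 (((eventually_atTop.2 (result N n (d + 1) _ (half_pos hε))).and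
    ((Ex.meet_count N (N * (N + 1)) d 2 (half_pos hε)).and (eventually_ge_atTop 1))).mono
      fun H ⟨h1, h2, h0⟩ L hL S hS => ?_)
  obtain ⟨𝒲, k1, k2, k3⟩ := h1 L fun z hz => by
    obtain ⟨h1, K, _, _, φ, α, h2, h3⟩ := hL z hz
    exact ⟨h1, K, _, ‹_›, φ, α, h2.trans d.le_succ, h3⟩
  choose! W k3 k4 using k3
  rw [Finset.card_eq_sum_card_fiberwise (f := W) (t := 𝒲) fun l hl => k3 l (hS l hl).1,
    Nat.cast_sum, ← add_halves ε, Real.rpow_add (by positivity), mul_assoc]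
  refine (Finset.sum_le_card_nsmul _ _ _ fun U hU => h2 L (fun z hz => ?_) U (k2 U hU).1 _
    fun l hl => ?_).trans ((nsmul_eq_mul _ _).trans_le (by gcongr))
  · obtain ⟨h1, K, _, _, φ, α, h2, h3, h4⟩ := hL z hz
    exact ⟨Ex.alg_of h2 h3 h4, h1⟩
  · obtain ⟨h3, rfl⟩ := Finset.mem_filter.1 hl
    obtain ⟨h4, M, h5, ⟨x, h6, h9⟩, h7⟩ := hS l h3
    exact ⟨h4, not_le.1 fun h8 => h7 (Ex.q1_of (k4 l h4 ℚ (algebraMap ℚ ℂ) (by simp)) h8 (.of M)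
      (fun i j => (Submodule.mem_span_range_iff_exists_fun ℚ).2 ((h5 i j).imp fun b hb => by
        simp [hb, Rat.smul_def])) (Matrix.exists_mulVec_eq_zero_iff.1 ⟨x, h6, funext h9⟩))⟩

/-- Example: at most `H ^ ε` independent pairs have a product that is algebraic of degree `≤ d`. -/
theorem product_count (d : ℕ) (ε : ℝ) (hε : 0 < ε) : ∃ H₀ : ℕ, ∀ H : ℕ, H₀ ≤ H → ∀ L : Finset ℂ,
    (∀ z ∈ L, ‖z‖ ≤ Real.log H ∧ ∃ (K : Type) (_ : Field K) (_ : NumberField K) (φ : K →+* ℂ)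
      (α : K), Module.finrank ℚ K ≤ d ∧ Complex.exp z = φ α ∧ Height.mulHeight₁ α ≤ H) →
    ∀ S : Finset (Fin 2 → ℂ), (∀ lam ∈ S, (∀ k, lam k ∈ L) ∧
      (∀ m : Fin 2 → ℚ, ∑ k, (m k : ℂ) * lam k = 0 → ∀ k, m k = 0) ∧
      ∃ (K : Type) (_ : Field K) (_ : NumberField K) (φ : K →+* ℂ) (β : K),
        Module.finrank ℚ K ≤ d ∧ lam 0 * lam 1 = φ β) → (S.card : ℝ) ≤ (H : ℝ) ^ ε := by
  classical
  refine eventually_atTop.1 (((eventually_atTop.2 (result 2 2 d _ (half_pos hε))).and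
    ((Ex.meet_count 2 (2 * (2 + 1)) d 2 (half_pos hε)).and (eventually_ge_atTop 1))).mono
      fun H ⟨h1, h2, h0⟩ L hL S hS => ?_)
  obtain ⟨𝒲, k1, k2, k3⟩ := h1 L hL
  choose! W k3 k4 using k3
  rw [Finset.card_eq_sum_card_fiberwise (f := W) (t := 𝒲) fun l hl => k3 l (hS l hl).1,
    Nat.cast_sum, ← add_halves ε, Real.rpow_add (by positivity)]
  refine (Finset.sum_le_card_nsmul _ _ _ fun U hU => h2 L (fun z hz => ?_) U (k2 U hU).1 _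
    fun l hl => ?_).trans ((nsmul_eq_mul _ _).trans_le (by rw [pow_zero, mul_one]; gcongr))
  · obtain ⟨h1, K, _, _, φ, α, h2, h3, h4⟩ := hL z hz
    exact ⟨Ex.alg_of h2 h3 h4, h1⟩
  · obtain ⟨h3, rfl⟩ := Finset.mem_filter.1 hl
    obtain ⟨h4, h5, K, _, _, φ, β, h6, h7⟩ := hS l h3
    refine ⟨h4, not_lt.1 fun h8 => ?_⟩
    obtain ⟨y, h9, h10⟩ := Ex.prod_ne (l := l) (by
      rw [Fintype.linearIndependent_iff]
      simpa only [Rat.smul_def] using h5) (Nat.le_of_lt_succ h8)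
    have := k4 l h4 K φ h6 (.X 0 * .X 1 + .C (-β)) ((MvPolynomial.totalDegree_add _ _).trans
      (max_le ((MvPolynomial.totalDegree_mul _ _).trans (by simp))
        (by rw [MvPolynomial.totalDegree_C]; simp))) (by simp [h7]) y h9
    exact h10 (by simpa [h7, add_neg_eq_zero] using this)

end Pool.Agent.Results.MP_1f047c_nt.ExceptionalC
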